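import Mathlib

set_option autoImplicit false

namespace Pool.Agent.Results.MP_4f3acd_an.Box

open Filter Topology Set MeasureTheory ProbabilityTheory

section
variable {Ω : Type} [MeasurableSpace Ω] {P : Measure Ω}

/-- Open sets of the `(ε,λ)`-topology of `L^0(F,ℝ)`. -/
def ELOpen (U : Set (Ω →ₘ[P] ℝ)) : Prop :=
  ∀ x ∈ U, ∃ ε > (0 : ℝ), ∃ l : ℝ, 0 < l ∧ l < 1 ∧
    ∀ y : Ω →ₘ[P] ℝ, 1 - l < P.real {ω | |y ω - x ω| < ε} → y ∈ U

/-- Open sets of the locally `L^0`-convex topology of `L^0(F,ℝ)`. -/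
def COpen (U : Set (Ω →ₘ[P] ℝ)) : Prop :=
  ∀ x ∈ U, ∃ ε : Ω →ₘ[P] ℝ, (∀ᵐ ω ∂P, 0 < ε ω) ∧
    ∀ y : Ω →ₘ[P] ℝ, (∀ᵐ ω ∂P, |y ω - x ω| < ε ω) → y ∈ U

/-- Countable measurable partitions. -/
def IsPart (a : ℕ → Set Ω) : Prop :=
  (∀ k, MeasurableSet (a k)) ∧ Pairwise (fun j k => Disjoint (a j) (a k)) ∧ ⋃ k, a k = univ

/-- `z = ∑_k I_{a_k} x_k`. -/
def Glue (a : ℕ → Set Ω) (x : ℕ → Ω →ₘ[P] ℝ) (z : Ω →ₘ[P] ℝ) : Prop :=
  ∀ k, ∀ᵐ ω ∂P, ω ∈ a k → z ω = x k ω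

/-- `σ`-stable set-valued maps. -/
def Stable (F : (Ω →ₘ[P] ℝ) → Set (Ω →ₘ[P] ℝ)) : Prop :=
  ∀ a x z, IsPart a → Glue a x z → F z = {w | ∃ y, (∀ k, y k ∈ F (x k)) ∧ Glue a y w}

/-- `T_c`-upper semicontinuity. -/
def CUsc (F : (Ω →ₘ[P] ℝ) → Set (Ω →ₘ[P] ℝ)) : Prop :=
  ∀ x₀ U, (∃ O, COpen O ∧ F x₀ ⊆ O ∧ O ⊆ U) →
    ∃ V, (∃ O, COpen O ∧ x₀ ∈ O ∧ O ⊆ V) ∧ ∀ x ∈ V, F x ⊆ U

/-- Random sequential upper semicontinuity. -/
def SeqUsc (F : (Ω →ₘ[P] ℝ) → Set (Ω →ₘ[P] ℝ)) : Prop :=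
  ∀ (x₀ : Ω →ₘ[P] ℝ) (x : ℕ → Ω →ₘ[P] ℝ), TendstoInMeasure P (fun n => x n) atTop x₀ →
    ∀ V, (∃ O, ELOpen O ∧ F x₀ ⊆ O ∧ O ⊆ V) →
      ∃ n : ℕ → Ω → ℕ, (∀ k, Measurable (n k)) ∧ (∀ k, ∀ᵐ ω ∂P, n k ω < n (k + 1) ω) ∧
        ∃ k₀, ∀ k ≥ k₀, ∀ z, Glue (fun l => {ω | n k ω = l}) x z → F z ⊆ V

end

theorem result : ∃ (Ω : Type) (_ : MeasurableSpace Ω) (P : Measure Ω), IsProbabilityMeasure P ∧
    (∀ (a : ℕ → Set Ω) (x : ℕ → Ω →ₘ[P] ℝ), IsPart a → ∃ z, Glue a x z) ∧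
    ∃ F : (Ω →ₘ[P] ℝ) → Set (Ω →ₘ[P] ℝ), (∀ x, (F x).Nonempty) ∧ Stable F ∧ SeqUsc F ∧ ¬ CUsc F := by
  classical
  obtain ⟨P, h0, hP⟩ : ∃ P : Measure ℕ, IsProbabilityMeasure P ∧ ∀ n, 0 < P.real {n} :=
    ⟨geometricMeasure ⟨1 / 2, by norm_num, by norm_num⟩, inferInstance,
      geometricMeasure_real_singleton_pos (by norm_num [Subtype.ext_iff]) (by norm_num [Subtype.ext_iff])⟩
  have hae : ∀ p : ℕ → Prop, (∀ᵐ ω ∂P, p ω) ↔ ∀ ω, p ω := fun p => ae_iff_of_countable.trans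
    (forall_congr' fun n => imp_iff_right fun h => by simpa [measureReal_def, h] using hP n)
  obtain ⟨mk, hmk⟩ : ∃ mk : (ℕ → ℝ) → ℕ →ₘ[P] ℝ, ∀ f, ⇑(mk f) = f :=
    ⟨fun f => .mk f (measurable_of_countable f).aestronglyMeasurable,
      fun f => funext ((hae _).1 (AEEqFun.coeFn_mk _ _))⟩
  have hk : ∀ k : ℕ, (0 : ℝ) < 1 / (k + 1) ∧ (1 / (k + 1) : ℝ) ≤ 1 := fun k =>
    ⟨by positivity, by rw [div_le_one (by positivity)]; simp⟩
  refine ⟨ℕ, inferInstance, P, h0, fun a x h => ?_, fun x => {z | z 0 = x 0 ∧ ∀ n ≠ 0, z n ∈ Icc 0 1},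
    fun x => ⟨mk fun n => if n = 0 then x 0 else 0, by simp +contextual [hmk]⟩, fun a x z h1 h2 => ?_,
    fun x₀ x hx V ⟨O, h1, h2, h3⟩ => ?_, fun h => ?_⟩
  · choose k hk using fun ω => mem_iUnion.1 (h.2.2.ge (mem_univ ω))
    refine ⟨mk fun ω => x (k ω) ω, fun j => .of_forall fun ω hω => ?_⟩
    rw [hmk, h.2.1.eq fun e => disjoint_left.1 e (hk ω) hω]
  · simp only [Glue, hae] at h2 ⊢
    ext w
    refine ⟨fun hw => ⟨fun k => mk fun ω => if ω ∈ a k then w ω else if ω = 0 then x k 0 else 0,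
      fun k => ⟨?_, fun n hn => ?_⟩, by simp +contextual [hmk]⟩, fun ⟨y, h3, h4⟩ => ⟨?_, fun n hn => ?_⟩⟩
    · simp +contextual [hmk, hw.1, h2 k 0]
    · simp only [hmk, hn, if_false]
      split_ifs
      exacts [hw.2 n hn, by simp]
    · obtain ⟨k, hk⟩ := mem_iUnion.1 (h1.2.2.ge (mem_univ 0))
      rw [h4 k 0 hk, h2 k 0 hk, (h3 k).1]
    · obtain ⟨k, hk⟩ := mem_iUnion.1 (h1.2.2.ge (mem_univ n))
      exact h4 k n hk ▸ (h3 k).2 n hn
  · have h4 : Tendsto (fun n => x n 0) atTop (𝓝 (x₀ 0)) := Metric.tendsto_nhds.2 fun ε hε =>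
      ((tendstoInMeasure_iff_measureReal_dist.1 hx ε hε).eventually (gt_mem_nhds (hP 0))).mono
        fun n hn => not_le.1 fun h => hn.not_ge (measureReal_mono (singleton_subset_iff.2 h))
    have h5 := (isCompact_univ_pi fun _ : ℕ => isCompact_Icc (a := (0 : ℝ)) (b := 1)
      ).eventually_forall_of_forall_eventually (x₀ := x₀ 0)
      (P := fun t w => mk (Function.update w 0 t) ∈ O) fun w hw => by
        obtain ⟨ε, hε, l, l0, -, h⟩ := h1 _ (h2 (a := mk (Function.update w 0 (x₀ 0)))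
          ⟨by simp [hmk], fun n hn => by simpa [hmk, hn] using hw n trivial⟩)
        have k1 : Tendsto (fun N => P.real (Iio N)) atTop (𝓝 1) := by
          simpa [iUnion_Iio, measureReal_def, Function.comp_def] using (ENNReal.tendsto_toReal (by simp)).comp
            (tendsto_measure_iUnion_atTop (μ := P) (monotone_Iio (α := ℕ)))
        obtain ⟨N, hN⟩ := (k1.eventually (lt_mem_nhds (show 1 - l < 1 by linarith))).exists
        have k2 : ∀ᶠ z : ℝ × (ℕ → ℝ) in 𝓝 (x₀ 0, w), ∀ i ∈ Iio N,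
            |Function.update z.2 0 z.1 i - Function.update w 0 (x₀ 0) i| < ε :=
          (eventually_all_finite (finite_Iio N)).2 fun i _ => (Continuous.tendsto' (by fun_prop) _ 0
            (by simp)).eventually (gt_mem_nhds hε)
        exact k2.mono fun z hz => h _ (hN.trans_le (measureReal_mono fun i hi => by rw [hmk, hmk]; exact hz i hi))
    obtain ⟨k₀, h6⟩ := eventually_atTop.1 (h4.eventually h5)
    refine ⟨fun k _ => k, fun _ => measurable_const, fun k => by simp, k₀, fun k hk z hz w hw => h3 ?_⟩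
    convert h6 k hk (Function.update w 0 0) fun n _ => by
      rcases eq_or_ne n 0 with rfl | hn
      exacts [by simp, by simpa [hn] using hw.2 n hn]
    refine AEEqFun.ext (.of_forall fun ω => ?_)
    simp [hmk, ← (hae _).1 (hz k) 0 rfl, ← hw.1]
  · obtain ⟨V, ⟨O, h1, h2, h3⟩, h4⟩ := h (mk 0) {z | ∀ k : ℕ, Tendsto z atTop (𝓝 (1 / (k + 1))) →
      z 0 < 1 / (k + 1)} ⟨{z | ∀ k : ℕ, Tendsto z atTop (𝓝 (1 / (k + 1))) →
      z 0 < 1 / (k + 1)}, fun z hz => by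
        obtain ⟨δ, hδ, k1⟩ : ∃ δ > 0, ∀ k : ℕ, Tendsto z atTop (𝓝 (1 / (k + 1))) →
            z 0 + δ ≤ 1 / (k + 1) := by
          by_cases h : ∃ k : ℕ, Tendsto z atTop (𝓝 (1 / (k + 1)))
          · obtain ⟨k, h⟩ := h
            exact ⟨_, sub_pos.2 (hz k h), fun j hj => by rw [tendsto_nhds_unique h hj]; simp⟩
          · exact ⟨1, one_pos, fun k hk => (h ⟨k, hk⟩).elim⟩
        refine ⟨mk fun ω => if ω = 0 then δ else 1 / (ω + 1), .of_forall fun ω => ?_, fun y hy k k2 => ?_⟩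
        · simp only [hmk]; split_ifs; exacts [hδ, (hk ω).1]
        simp only [hae, hmk] at hy
        have k3 : Tendsto (fun ω => y ω - z ω) atTop (𝓝 0) := squeeze_zero_norm'
          ((eventually_ne_atTop 0).mono fun ω h => by simpa [h] using (hy ω).le)
          tendsto_one_div_add_atTop_nhds_zero_nat
        have k4 := (abs_lt.1 (hy 0)).2
        rw [if_pos rfl] at k4
        linarith [k1 k (by simpa using k2.sub k3)],
      fun z hz k _ => by simpa [hz.1, hmk] using (hk k).1, subset_rfl⟩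
    obtain ⟨ε, h5, h6⟩ := h1 _ h2
    simp only [hae, hmk] at h5 h6
    obtain ⟨k, h7⟩ := exists_nat_one_div_lt (h5 0)
    have := h4 _ (h3 (h6 (mk fun ω => if ω = 0 then 1 / (k + 1) else 0) fun ω => by
      simp only [hmk, Pi.zero_apply, sub_zero]
      split_ifs with e
      exacts [by rwa [abs_of_pos (hk k).1, e], by simpa using h5 ω]))
      (a := mk fun _ => 1 / (k + 1)) ⟨by simp [hmk], fun n _ => by simpa only [hmk] using ⟨(hk k).1.le, (hk k).2⟩⟩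
      k (by simp [hmk])
    simp [hmk] at this

end Pool.Agent.Results.MP_4f3acd_an.Box
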